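import Pool.Agent.Y366.SO.Main

/-!
MP_ccd76d_co: solid packings of arbitrary bodies are uniformly finitely stable. The bodies need not
be convex, nor connected, nor congruent to each other: a body is any compact set with nonempty
interior, and the members of the packing may be congruent copies of finitely many bodies, mixed with
bodies of infinitely many congruence types whose inradii and diameters are bounded and which are
convex or have uniformly nowhere dense frontiers.
-/

set_option autoImplicit false

universe u

namespace Pool.Agent.Results.MP_ccd76d_co.ArbitraryBodies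

/-- the Euclidean space of dimension `d` -/
abbrev E (d : ℕ) := EuclideanSpace ℝ (Fin d)

/-- a body: a compact set with nonempty interior (not necessarily convex or connected) -/
def IsBody {d : ℕ} (K : Set (E d)) : Prop := IsCompact K ∧ (interior K).Nonempty

/-- `B` is a congruent copy of `A`: the image of `A` under an isometry of the space -/
def Congruent {d : ℕ} (A B : Set (E d)) : Prop := ∃ g : E d ≃ᵢ E d, g '' A = B

/-- a packing: the interiors of the members are pairwise disjoint -/
def IsPacking {d : ℕ} {ι : Type*} (C : ι → Set (E d)) : Prop :=
  ∀ i j, i ≠ j → Disjoint (interior (C i)) (interior (C j))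

/-- a solid packing: whenever finitely many members are replaced by congruent copies of themselves,
placed anywhere, and the result `C'` is again a packing, then `C'` is congruent to `C`, that is, some
isometry of the space maps the family `C` onto the family `C'` -/
def IsSolid {d : ℕ} {ι : Type*} (C : ι → Set (E d)) : Prop :=
  IsPacking C ∧ ∀ C' : ι → Set (E d), {i | C' i ≠ C i}.Finite → (∀ i, Congruent (C i) (C' i)) →
    IsPacking C' → ∃ g : E d ≃ᵢ E d, (fun A => g '' A) '' Set.range C = Set.range C'

/-- uniform finite stability: there is one `ε > 0` such that whenever finitely many members are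
replaced by congruent copies of themselves at Hausdorff distance less than `ε` from the members they
replace, and the result `C'` is again a packing, then nothing has changed -/
def UniformlyFinitelyStable {d : ℕ} {ι : Type*} (C : ι → Set (E d)) : Prop :=
  ∃ ε : ℝ, 0 < ε ∧ ∀ C' : ι → Set (E d), {i | C' i ≠ C i}.Finite →
    (∀ i, Congruent (C i) (C' i)) → IsPacking C' →
    (∀ i, Metric.hausdorffDist (C i) (C' i) < ε) → C' = C

/-- **Solid packings of arbitrary bodies are uniformly finitely stable.**

(1) One body: for every dimension `d` and every compact set `K` with nonempty interior, every solid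
packing of at least two congruent copies of `K` is uniformly finitely stable.

(2) Many bodies: the same holds for packings each of whose members is a congruent copy of a member
of a given finite set `𝒦` of bodies, or a compact set which contains a ball of radius `c`, has
diameter at most `D` and is convex or has a uniformly nowhere dense frontier (every closed ball of
radius `ρ` contains a point at distance more than `δ ρ` from the frontier, where the positive
function `δ` is the same for all members). So the members may have infinitely many congruence types.
Moreover such a solid packing is relatively dense: some `R` is such that every point of the space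
has distance at most `R` from some member.

(3) A packing with exactly one member is always solid and never uniformly finitely stable (in
dimension at least one), so that the hypothesis on the number of members cannot be omitted. -/
theorem result :
    (∀ (d : ℕ) (K : Set (E d)), IsBody K → ∀ (ι : Type u) (C : ι → Set (E d)),
      (∃ i j : ι, i ≠ j) → (∀ i, Congruent K (C i)) → IsSolid C → UniformlyFinitelyStable C) ∧
    (∀ (d : ℕ) (𝒦 : Set (Set (E d))), 𝒦.Finite → (∀ K ∈ 𝒦, IsBody K) →
      ∀ (c D : ℝ) (δ : ℝ → ℝ), 0 < c → (∀ ρ : ℝ, 0 < ρ → 0 < δ ρ) →
      ∀ (ι : Type u) (C : ι → Set (E d)), (∃ i j : ι, i ≠ j) →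
      (∀ i, (∃ K ∈ 𝒦, Congruent K (C i)) ∨
        (IsCompact (C i) ∧ (∃ z, Metric.closedBall z c ⊆ C i) ∧
          (∀ x ∈ C i, ∀ y ∈ C i, dist x y ≤ D) ∧
          (Convex ℝ (C i) ∨ ∀ ρ : ℝ, 0 < ρ → ∀ w : E d,
            ∃ p ∈ Metric.closedBall w ρ, ∀ y ∈ frontier (C i), δ ρ < dist p y))) →
      IsSolid C → UniformlyFinitelyStable C ∧
        ∃ R : ℝ, ∀ x : E d, ∃ i, ∃ y ∈ C i, dist x y ≤ R) ∧
    (∀ d : ℕ, 1 ≤ d → ∀ (ι : Type u) (C : ι → Set (E d)), (∃ i : ι, ∀ j : ι, j = i) →
      (∀ i, IsBody (C i)) → IsSolid C ∧ ¬ UniformlyFinitelyStable C) := by
  refine ⟨?_, ?_, ?_⟩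
  · intro d K hK ι C hι hC hS
    haveI : Nontrivial ι := ⟨hι⟩
    exact (Pool.Agent.Y366.SO.tame_ufs (𝒦 := {K}) (Set.finite_singleton K)
      (fun K' hK' => by rw [Set.mem_singleton_iff.1 hK']; exact hK) (c := 1) (D := 1)
      (δ := fun _ => 1) one_pos (fun _ _ => one_pos) (fun i => Or.inl ⟨K, rfl, hC i⟩) hS).1
  · intro d 𝒦 hfin h𝒦 c D δ hc hδ ι C hι hC hS
    haveI : Nontrivial ι := ⟨hι⟩
    exact Pool.Agent.Y366.SO.tame_ufs hfin h𝒦 hc hδ hC hS
  · rintro d hd ι C ⟨i, hi⟩ hC
    exact Pool.Agent.Y366.SO.single_body hd hC i hi

end Pool.Agent.Results.MP_ccd76d_co.ArbitraryBodies
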